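import Pool.Agent.V1134.RSeq2

/-!
# `SD_{2^n}` is R-sequenceable for every `n ≥ 4`
-/

namespace Pool.Agent.Results.MP_d3366a_al.SemidihedralRSequenceable

open Pool.Agent.V1134.RSeq

/-- Values at even positions. -/
def VE (k j : ℕ) : ℕ := if j = 0 then 0 else if j < 6 * k then 8 * k - j else j + 1 - 6 * k
/-- Cosets at even positions. -/
def CE (k j : ℕ) : ℕ := if j < 6 * k then 0 else 1
/-- Values at odd positions. -/
def VO (k j : ℕ) : ℕ :=
  if j < 2 * k then j + 1 else if j = 2 * k then 0 else if j < 4 * k then 10 * k - j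
  else 10 * k - 1 - j
/-- Cosets at odd positions. -/
def CO (k j : ℕ) : ℕ := if j < 2 * k then 0 else 1
/-- Quotients at even positions. -/
def QE (k j : ℕ) : ℕ :=
  if j < 2 * k then 2 * j + 1
  else if j < 4 * k then
    (if j % 2 = 0 then 2 * j - 2 * k else if j < 3 * k then 2 * j + 2 * k else 2 * j - 6 * k)
  else if j < 6 * k then
    (if j % 2 = 0 then 2 * j + 1 - 6 * k
      else if 10 * k ≤ 2 * j + 1 then 2 * j + 1 - 10 * k else 2 * j + 1 - 2 * k)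
  else if j < 8 * k - 1 then 16 * k - 2 - 2 * j
  else 6 * k
/-- Quotient cosets at even positions. -/
def DE (k j : ℕ) : ℕ :=
  if j < 2 * k then 0 else if j < 6 * k then 1 else if j < 8 * k - 1 then 0 else 1
/-- Quotients at odd positions. -/
def QO (k j : ℕ) : ℕ :=
  if j < 2 * k then 8 * k - 2 * j - 2
  else if j < 4 * k then
    (if j % 2 = 1 then 2 * j + 1 - 2 * k
      else if 2 * j + 1 < 6 * k then 2 * j + 1 + 2 * k else 2 * j + 1 - 6 * k)
  else if j < 6 * k - 1 then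
    (if j % 2 = 0 then 2 * j + 2 - 6 * k
      else if 10 * k ≤ 2 * j + 2 then 2 * j + 2 - 10 * k else 2 * j + 2 - 2 * k)
  else if j = 6 * k - 1 then 4 * k + 1
  else 2 * j + 3 - 8 * k
/-- Quotient cosets at odd positions. -/
def DO (k j : ℕ) : ℕ := if j < 2 * k then 0 else if j < 6 * k - 1 then 1 else 0

/-- Multiplication by `4k - 1` on integers mod `8k`. -/
def ρ (k v : ℕ) : ℤ := if v % 2 = 0 then -(v : ℤ) else -(v : ℤ) + 4 * k

theorem cast_sub (k : ℕ) (hk : 1 ≤ k) : ((4 * k - 1 : ℕ) : ZMod (8 * k)) = 4 * (k : ZMod (8 * k)) - 1 := by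
  rw [Nat.cast_sub (by omega)]; push_cast; ring

theorem hρ (k : ℕ) (hk : 1 ≤ k) (v : ℕ) : ((ρ k v : ℤ) : ZMod (8 * k)) =
    ((4 * k - 1 : ℕ) : ZMod (8 * k)) * (v : ZMod (8 * k)) := by
  have h8 : ((8 : ZMod (8 * k)) * (k : ZMod (8 * k))) = 0 := by
    have := ZMod.natCast_self (8 * k)
    push_cast at this
    exact this
  rw [cast_sub k hk]
  unfold ρ
  obtain ⟨w, hw⟩ := Nat.even_or_odd' v
  rcases hw with rfl | rfl
  · rw [if_pos (by omega)]
    push_cast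
    linear_combination (-(w : ZMod (8 * k))) * h8
  · rw [if_neg (by omega)]
    push_cast
    linear_combination (-(w : ZMod (8 * k))) * h8

theorem QE_spec (k j : ℕ) (hk : 1 ≤ k) (hj : j < 8 * k) :
    (j < 2 * k ∧ QE k j = 2 * j + 1 ∧ DE k j = 0) ∨
    (2 * k ≤ j ∧ j < 4 * k ∧ j % 2 = 0 ∧ QE k j + 2 * k = 2 * j ∧ DE k j = 1) ∨
    (2 * k ≤ j ∧ j < 3 * k ∧ j % 2 = 1 ∧ QE k j = 2 * j + 2 * k ∧ DE k j = 1) ∨
    (3 * k ≤ j ∧ j < 4 * k ∧ j % 2 = 1 ∧ QE k j + 6 * k = 2 * j ∧ DE k j = 1) ∨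
    (4 * k ≤ j ∧ j < 6 * k ∧ j % 2 = 0 ∧ QE k j + 6 * k = 2 * j + 1 ∧ DE k j = 1) ∨
    (10 * k ≤ 2 * j + 1 ∧ j < 6 * k ∧ j % 2 = 1 ∧ QE k j + 10 * k = 2 * j + 1 ∧ DE k j = 1) ∨
    (4 * k ≤ j ∧ 2 * j + 1 < 10 * k ∧ j % 2 = 1 ∧ QE k j + 2 * k = 2 * j + 1 ∧ DE k j = 1) ∨
    (6 * k ≤ j ∧ j < 8 * k - 1 ∧ QE k j + 2 + 2 * j = 16 * k ∧ DE k j = 0) ∨
    (j + 1 = 8 * k ∧ QE k j = 6 * k ∧ DE k j = 1) := by
  unfold QE DE
  split_ifs <;> first
    | (exfalso; omega)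
    | (refine Or.inl ?_; omega)
    | (refine Or.inr (Or.inl ?_); omega)
    | (refine Or.inr (Or.inr (Or.inl ?_)); omega)
    | (refine Or.inr (Or.inr (Or.inr (Or.inl ?_))); omega)
    | (refine Or.inr (Or.inr (Or.inr (Or.inr (Or.inl ?_)))); omega)
    | (refine Or.inr (Or.inr (Or.inr (Or.inr (Or.inr (Or.inl ?_))))); omega)
    | (refine Or.inr (Or.inr (Or.inr (Or.inr (Or.inr (Or.inr (Or.inl ?_)))))); omega)
    | (refine Or.inr (Or.inr (Or.inr (Or.inr (Or.inr (Or.inr (Or.inr (Or.inl ?_))))))); omega)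
    | (refine Or.inr (Or.inr (Or.inr (Or.inr (Or.inr (Or.inr (Or.inr (Or.inr (?_)))))))); omega)

theorem QO_spec (k j : ℕ) (hk : 1 ≤ k) (hj : j < 8 * k - 1) :
    (j < 2 * k ∧ QO k j + 2 * j + 2 = 8 * k ∧ DO k j = 0) ∨
    (2 * k ≤ j ∧ j < 4 * k ∧ j % 2 = 1 ∧ QO k j + 2 * k = 2 * j + 1 ∧ DO k j = 1) ∨
    (2 * k ≤ j ∧ 2 * j + 1 < 6 * k ∧ j % 2 = 0 ∧ QO k j = 2 * j + 1 + 2 * k ∧ DO k j = 1) ∨
    (6 * k ≤ 2 * j + 1 ∧ j < 4 * k ∧ j % 2 = 0 ∧ QO k j + 6 * k = 2 * j + 1 ∧ DO k j = 1) ∨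
    (4 * k ≤ j ∧ j < 6 * k - 1 ∧ j % 2 = 0 ∧ QO k j + 6 * k = 2 * j + 2 ∧ DO k j = 1) ∨
    (10 * k ≤ 2 * j + 2 ∧ j < 6 * k - 1 ∧ j % 2 = 1 ∧ QO k j + 10 * k = 2 * j + 2 ∧ DO k j = 1) ∨
    (4 * k ≤ j ∧ 2 * j + 2 < 10 * k ∧ j % 2 = 1 ∧ QO k j + 2 * k = 2 * j + 2 ∧ DO k j = 1) ∨
    (j + 1 = 6 * k ∧ QO k j = 4 * k + 1 ∧ DO k j = 0) ∨
    (6 * k ≤ j ∧ QO k j + 8 * k = 2 * j + 3 ∧ DO k j = 0) := by
  unfold QO DO
  split_ifs <;> first
    | (exfalso; omega)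
    | (refine Or.inl ?_; omega)
    | (refine Or.inr (Or.inl ?_); omega)
    | (refine Or.inr (Or.inr (Or.inl ?_)); omega)
    | (refine Or.inr (Or.inr (Or.inr (Or.inl ?_))); omega)
    | (refine Or.inr (Or.inr (Or.inr (Or.inr (Or.inl ?_)))); omega)
    | (refine Or.inr (Or.inr (Or.inr (Or.inr (Or.inr (Or.inl ?_))))); omega)
    | (refine Or.inr (Or.inr (Or.inr (Or.inr (Or.inr (Or.inr (Or.inl ?_)))))); omega)
    | (refine Or.inr (Or.inr (Or.inr (Or.inr (Or.inr (Or.inr (Or.inr (Or.inl ?_))))))); omega)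
    | (refine Or.inr (Or.inr (Or.inr (Or.inr (Or.inr (Or.inr (Or.inr (Or.inr (?_)))))))); omega)

theorem q1 (k i j : ℕ) (hk : 1 ≤ k) (hi : i < 8 * k) (hj : j < 8 * k)
    (h : QE k i = QE k j) (h' : DE k i = DE k j) : i = j := by
  have a := QE_spec k i hk hi
  have b := QE_spec k j hk hj
  rcases a with a | a | a | a | a | a | a | a | a <;>
  rcases b with b | b | b | b | b | b | b | b | b <;> omega

theorem q2 (k i j : ℕ) (hk : 1 ≤ k) (hi : i < 8 * k) (hj : j < 8 * k - 1)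
    (h : QE k i = QO k j) (h' : DE k i = DO k j) : False := by
  have a := QE_spec k i hk hi
  have b := QO_spec k j hk hj
  rcases a with a | a | a | a | a | a | a | a | a <;>
  rcases b with b | b | b | b | b | b | b | b | b <;> omega

theorem q3 (k i j : ℕ) (hk : 1 ≤ k) (hi : i < 8 * k - 1) (hj : j < 8 * k - 1)
    (h : QO k i = QO k j) (h' : DO k i = DO k j) : i = j := by
  have a := QO_spec k i hk hi
  have b := QO_spec k j hk hj
  rcases a with a | a | a | a | a | a | a | a | a <;>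
  rcases b with b | b | b | b | b | b | b | b | b <;> omega

theorem VE_lt (k j : ℕ) (hk : 1 ≤ k) (hj : j < 8 * k) : VE k j < 8 * k := by
  unfold VE; split_ifs <;> omega

theorem VO_lt (k j : ℕ) (hk : 1 ≤ k) (hj : j < 8 * k - 1) : VO k j < 8 * k := by
  unfold VO; split_ifs <;> omega

theorem CE_le (k j : ℕ) : CE k j ≤ 1 := by
  unfold CE; split_ifs <;> omega

theorem CO_le (k j : ℕ) : CO k j ≤ 1 := by
  unfold CO; split_ifs <;> omega

theorem DE_le (k j : ℕ) : DE k j ≤ 1 := by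
  unfold DE; split_ifs <;> omega

theorem DO_le (k j : ℕ) : DO k j ≤ 1 := by
  unfold DO; split_ifs <;> omega

theorem QE_lt (k j : ℕ) (hk : 1 ≤ k) (hj : j < 8 * k) : QE k j < 8 * k := by
  have a := QE_spec k j hk hj
  rcases a with a | a | a | a | a | a | a | a | a <;> omega

theorem QO_lt (k j : ℕ) (hk : 1 ≤ k) (hj : j < 8 * k - 1) : QO k j < 8 * k := by
  have a := QO_spec k j hk hj
  rcases a with a | a | a | a | a | a | a | a | a <;> omega

theorem i1 (k i j : ℕ) (hi : i < 8 * k) (hj : j < 8 * k)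
    (h : VE k i = VE k j) (h' : CE k i = CE k j) : i = j := by
  unfold VE at h; unfold CE at h'
  split_ifs at h h' <;> omega

theorem i2 (k i j : ℕ) (hi : i < 8 * k) (hj : j < 8 * k - 1)
    (h : VE k i = VO k j) (h' : CE k i = CO k j) : False := by
  unfold VE VO at h; unfold CE CO at h'
  split_ifs at h h' <;> omega

theorem i3 (k i j : ℕ) (hi : i < 8 * k - 1) (hj : j < 8 * k - 1)
    (h : VO k i = VO k j) (h' : CO k i = CO k j) : i = j := by
  unfold VO at h; unfold CO at h'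
  split_ifs at h h' <;> omega

theorem m1 (k j : ℕ) (hk : 1 ≤ k) (hj : j < 8 * k) (h : VE k j = 6 * k) (h' : CE k j = 1) :
    False := by
  unfold VE at h; unfold CE at h'
  split_ifs at h h' <;> omega

theorem m2 (k j : ℕ) (hk : 1 ≤ k) (hj : j < 8 * k - 1) (h : VO k j = 6 * k)
    (h' : CO k j = 1) : False := by
  unfold VO at h; unfold CO at h'
  split_ifs at h h' <;> omega

theorem s1a (k j : ℕ) (hk : 1 ≤ k) (hj : j < 8 * k - 1) :
    DE k j = (CE k j + CO k j) % 2 := by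
  unfold DE CE CO; split_ifs <;> omega

theorem s1b (k j : ℕ) (hk : 1 ≤ k) (hj : j < 8 * k - 1) (hc : CE k j = CO k j) :
    ∃ e : ℤ, (VO k j : ℤ) - VE k j = QE k j + 8 * k * e := by
  have hq := QE_spec k j hk (by omega)
  unfold CE CO at hc
  unfold VE VO
  rcases hq with hq | hq | hq | hq | hq | hq | hq | hq | hq <;> split_ifs at hc ⊢ <;> first
      | (exfalso; omega)
      | exact ⟨0, by omega⟩
      | exact ⟨1, by omega⟩
      | exact ⟨-1, by omega⟩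
      | exact ⟨-2, by omega⟩
      | exact ⟨-3, by omega⟩
      | exact ⟨2, by omega⟩

theorem s1c (k j : ℕ) (hk : 1 ≤ k) (hj : j < 8 * k - 1) (hc : CE k j ≠ CO k j) :
    ∃ e : ℤ, ρ k (VO k j) - VE k j = QE k j + 8 * k * e := by
  have hq := QE_spec k j hk (by omega)
  unfold CE CO at hc
  unfold VE VO ρ
  rcases hq with hq | hq | hq | hq | hq | hq | hq | hq | hq <;> split_ifs at hc ⊢ <;> first
      | (exfalso; omega)
      | exact ⟨0, by omega⟩
      | exact ⟨1, by omega⟩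
      | exact ⟨-1, by omega⟩
      | exact ⟨-2, by omega⟩
      | exact ⟨-3, by omega⟩
      | exact ⟨2, by omega⟩

theorem s2a (k j : ℕ) (hk : 1 ≤ k) (hj : j < 8 * k - 1) :
    DO k j = (CO k j + CE k (j + 1)) % 2 := by
  unfold DO CE CO; split_ifs <;> omega

theorem s2b (k j : ℕ) (hk : 1 ≤ k) (hj : j < 8 * k - 1) (hc : CO k j = CE k (j + 1)) :
    ∃ e : ℤ, (VE k (j + 1) : ℤ) - VO k j = QO k j + 8 * k * e := by
  have hq := QO_spec k j hk (by omega)
  unfold CE CO at hc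
  unfold VE VO
  rcases hq with hq | hq | hq | hq | hq | hq | hq | hq | hq <;> split_ifs at hc ⊢ <;> first
      | (exfalso; omega)
      | exact ⟨0, by omega⟩
      | exact ⟨1, by omega⟩
      | exact ⟨-1, by omega⟩
      | exact ⟨-2, by omega⟩
      | exact ⟨-3, by omega⟩
      | exact ⟨2, by omega⟩

theorem s2c (k j : ℕ) (hk : 1 ≤ k) (hj : j < 8 * k - 1) (hc : CO k j ≠ CE k (j + 1)) :
    ∃ e : ℤ, ρ k (VE k (j + 1)) - VO k j = QO k j + 8 * k * e := by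
  have hq := QO_spec k j hk (by omega)
  unfold CE CO at hc
  unfold VE VO ρ
  rcases hq with hq | hq | hq | hq | hq | hq | hq | hq | hq <;> split_ifs at hc ⊢ <;> first
      | (exfalso; omega)
      | exact ⟨0, by omega⟩
      | exact ⟨1, by omega⟩
      | exact ⟨-1, by omega⟩
      | exact ⟨-2, by omega⟩
      | exact ⟨-3, by omega⟩
      | exact ⟨2, by omega⟩

theorem s3 (k j : ℕ) (hk : 1 ≤ k) (hj : j + 1 = 8 * k) :
    VE k j = 2 * k ∧ VE k 0 = 0 ∧ CE k j = 1 ∧ CE k 0 = 0 ∧ QE k j = 6 * k ∧ DE k j = 1 := by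
  have hq := QE_spec k j hk (by omega)
  unfold VE CE
  refine ⟨?_, ?_, ?_, ?_, ?_, ?_⟩
  · split_ifs <;> omega
  · simp
  · split_ifs <;> omega
  · split_ifs <;> omega
  · omega
  · omega

/-- The model group is R-sequenceable. -/
theorem model (k : ℕ) (hk : 1 ≤ k)
    (hr : (((4 * k - 1 : ℕ) : ZMod (8 * k))) * ((4 * k - 1 : ℕ) : ZMod (8 * k)) = 1) :
    letI := Tw.group (8 * k) ((4 * k - 1 : ℕ) : ZMod (8 * k)) hr
    RSequenceable (Tw (8 * k) ((4 * k - 1 : ℕ) : ZMod (8 * k))) :=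
  rseq_tw2 k hk _ hr (ρ k) (hρ k hk) (VE k) (CE k) (VO k) (CO k) (QE k) (DE k) (QO k) (DO k)
    (6 * k) 1 (by omega) le_rfl
    (fun j hj => ⟨VE_lt k j hk hj, QE_lt k j hk hj, CE_le k j, DE_le k j⟩)
    (fun j hj => ⟨VO_lt k j hk hj, QO_lt k j hk hj, CO_le k j, DO_le k j⟩)
    (fun i j hi hj => i1 k i j hi hj)
    (fun i j hi hj => i2 k i j hi hj)
    (fun i j hi hj => i3 k i j hi hj)
    (fun i j hi hj => q1 k i j hk hi hj)
    (fun i j hi hj => q2 k i j hk hi hj)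
    (fun i j hi hj => q3 k i j hk hi hj)
    (fun j hj => m1 k j hk hj)
    (fun j hj => m2 k j hk hj)
    (fun j hj => ⟨s1a k j hk hj, s1b k j hk hj, s1c k j hk hj⟩)
    (fun j hj => ⟨s2a k j hk hj, s2b k j hk hj, s2c k j hk hj⟩)
    (fun j hj => by
      obtain ⟨h1, h2, h3, h4, h5, h6⟩ := s3 k j hk hj
      rw [h1, h2, h3, h4, h5, h6]
      refine ⟨rfl, fun h => by omega, fun _ => ⟨-1, ?_⟩⟩
      unfold ρ
      rw [if_pos (by rfl)]
      push_cast
      ring)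

/-- The semidihedral group
`SD_{2^n} = ⟨a, b | a^{2^{n-1}} = b² = 1, b a b⁻¹ = a^{2^{n-2} - 1}⟩`. -/
abbrev SemidihedralGroup (n : ℕ) : Type :=
  PresentedGroup ({FreeGroup.of false ^ 2 ^ (n - 1), FreeGroup.of true ^ 2,
    FreeGroup.of true * FreeGroup.of false * (FreeGroup.of true)⁻¹ *
      (FreeGroup.of false ^ (2 ^ (n - 2) - 1))⁻¹} : Set (FreeGroup Bool))

theorem card_and_rseq (n : ℕ) (hn : 4 ≤ n) :
    Nat.card (SemidihedralGroup n) = 2 ^ n ∧ RSequenceable (SemidihedralGroup n) := by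
  obtain ⟨m, rfl⟩ : ∃ m, n = m + 4 := ⟨n - 4, by omega⟩
  set k := 2 ^ m with hkdef
  have hk : 1 ≤ k := Nat.one_le_two_pow
  have h1 : 2 ^ (m + 4 - 1) = 8 * k := by
    rw [hkdef, show m + 4 - 1 = m + 3 by omega, pow_add]; ring
  have h2 : 2 ^ (m + 4 - 2) = 4 * k := by
    rw [hkdef, show m + 4 - 2 = m + 2 by omega, pow_add]; ring
  have hN : NeZero (8 * k) := ⟨by omega⟩
  have h8 : ((8 : ZMod (8 * k)) * (k : ZMod (8 * k))) = 0 := by
    have := ZMod.natCast_self (8 * k)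
    push_cast at this
    exact this
  have hr : (((4 * k - 1 : ℕ) : ZMod (8 * k))) * ((4 * k - 1 : ℕ) : ZMod (8 * k)) = 1 := by
    rw [cast_sub k hk]
    linear_combination (2 * (k : ZMod (8 * k)) - 1) * h8
  let _ := Tw.group (8 * k) ((4 * k - 1 : ℕ) : ZMod (8 * k)) hr
  obtain ⟨e⟩ := pres_equiv (8 * k) (4 * k - 1) hr
  have hS := (model k hk hr).of_mulEquiv e
  have hC : Nat.card (Pres (8 * k) (4 * k - 1)) = 2 ^ (m + 4) := by
    rw [← Nat.card_congr e.toEquiv, card_tw, hkdef, pow_add]; ring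
  have h3 : (rels (8 * k) (4 * k - 1)) = ({FreeGroup.of false ^ 2 ^ (m + 4 - 1),
      FreeGroup.of true ^ 2, FreeGroup.of true * FreeGroup.of false * (FreeGroup.of true)⁻¹ *
      (FreeGroup.of false ^ (2 ^ (m + 4 - 2) - 1))⁻¹} : Set (FreeGroup Bool)) := by
    unfold rels; rw [h1, h2]
  unfold Pres at hS hC
  rw [h3] at hS hC
  exact ⟨hC, hS⟩

/-- **MP_d3366a, Q1.** For every `n ≥ 4`, `SD_{2^n}` (of order `2^n`) is R-sequenceable. -/
theorem _root_.Pool.Agent.Results.MP_d3366a_al.SemidihedralRSequenceable.result :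
    ∀ n : ℕ, 4 ≤ n → Nat.card (SemidihedralGroup n) = 2 ^ n ∧
      RSequenceable (SemidihedralGroup n) :=
  card_and_rseq

end Pool.Agent.Results.MP_d3366a_al.SemidihedralRSequenceable
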